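import Pool.Agent.W236.SC.Defs2

/-!
# SC-GRAPH: edges between classes are the extremal increasing flips; sorting words
-/

set_option autoImplicit false

namespace Pool.Agent.W230.SC

open Pool.Agent.Helper741 Pool.Agent.W236.SC

variable {B : Type*} [Fintype B] [DecidableEq B] {M : CoxeterMatrix B}
variable {W : Type*} [Group W] (cs : CoxeterSystem M W)

lemma pf_erase_le (q : ℕ → B) (U : Finset ℕ) (k : ℕ) :
    ∀ j, j ≤ k → pf cs q (U.erase k) j = pf cs q U j := by
  intro j
  induction j with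
  | zero => intro _; rfl
  | succ j ih =>
    intro hj
    have hne : j ≠ k := by omega
    simp only [pf, Finset.mem_erase, ne_eq, hne, not_false_eq_true, true_and, ih (by omega)]

lemma pf_erase_gt (q : ℕ → B) (U : Finset ℕ) (k : ℕ) (hk : k ∈ U) :
    ∀ j, k < j → pf cs q (U.erase k) j =
      (pf cs q U k * cs.simple (q k) * (pf cs q U k)⁻¹) * pf cs q U j := by
  intro j hj
  induction j, hj using Nat.le_induction with
  | base =>
    simp only [pf, Finset.mem_erase, ne_eq, not_true_eq_false, false_and, if_false, hk, if_true]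
    rw [pf_erase_le cs q U k k le_rfl]
    simp [mul_assoc]
  | succ j hj ih =>
    have hne : j ≠ k := by omega
    simp only [pf, Finset.mem_erase, ne_eq, hne, not_false_eq_true, true_and]
    split_ifs
    · rw [ih]; simp only [mul_assoc]
    · exact ih

lemma rt_erase_le (q : ℕ → B) (U : Finset ℕ) (k j : ℕ) (hj : j ≤ k) :
    rt cs q (U.erase k) j = rt cs q U j := by
  unfold rt
  rw [pf_erase_le cs q U k j hj]

lemma rt_erase_gt (q : ℕ → B) (U : Finset ℕ) (k j : ℕ) (hk : k ∈ U) (hj : k < j) :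
    rt cs q (U.erase k) j =
      geo cs (pf cs q U k * cs.simple (q k) * (pf cs q U k)⁻¹) (rt cs q U j) := by
  unfold rt
  rw [pf_erase_gt cs q U k hk j hj, map_mul, Module.End.mul_apply]

lemma length_pf_le (q : ℕ → B) (U : Finset ℕ) (n : ℕ) :
    cs.length (pf cs q U n) ≤ (U.filter (fun k => k < n)).card := by
  induction n with
  | zero => simp [pf]
  | succ n ih =>
    simp only [pf]
    split_ifs with h
    · have h1 := cs.length_mul_le (pf cs q U n) (cs.simple (q n))
      rw [cs.length_simple] at h1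
      have h2 : U.filter (fun k => k < n + 1) = insert n (U.filter (fun k => k < n)) := by
        ext a
        simp only [Finset.mem_filter, Finset.mem_insert]
        constructor
        · rintro ⟨h1, h2⟩
          by_cases h3 : a = n
          · exact Or.inl h3
          · exact Or.inr ⟨h1, by omega⟩
        · rintro (h1 | ⟨h1, h2⟩)
          · subst h1; exact ⟨h, by omega⟩
          · exact ⟨h1, by omega⟩
      rw [h2, Finset.card_insert_of_notMem (by simp)]
      omega
    · refine ih.trans (Finset.card_le_card ?_)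
      intro a
      simp only [Finset.mem_filter]
      rintro ⟨h1, h2⟩
      exact ⟨h1, by omega⟩

/-- erasing a used position with root `± w e_s` -/
lemma erase_prod (hB : BaseF cs) (n : ℕ) (q : ℕ → B) (ω w : W) (s : B) (V : Finset ℕ)
    (hV : IsFac cs n q ω V) (k : ℕ) (hk : k ∈ V) (hr : rt cs q V k = geo cs w (ee s)) :
    pf cs q V k * cs.simple (q k) * (pf cs q V k)⁻¹ = w * cs.simple s * w⁻¹ ∧
    pf cs q (V.erase k) n = w * cs.simple s * w⁻¹ * ω := by
  have h1 : pf cs q V k * cs.simple (q k) * (pf cs q V k)⁻¹ = w * cs.simple s * w⁻¹ :=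
    (hB.refl_inj _ _ _ _).mpr (Or.inl hr)
  refine ⟨h1, ?_⟩
  rw [pf_erase_gt cs q V k hk n (hV.sub k hk), h1, hV.prod]

theorem subw (hB : BaseF cs) (hR : S_ROOTS cs) : S_SUBW cs := by
  intro n q w₀ hmax hex
  have key : ∀ (d : ℕ) (w : W), cs.length w₀ - cs.length w = d → ∃ U, IsFac cs n q w U := by
    intro d
    induction d using Nat.strong_induction_on with
    | _ d ih =>
    intro w hd
    by_cases hasc : ∃ s, cs.length w < cs.length (w * cs.simple s)
    · obtain ⟨s, hs⟩ := hasc
      have hle := hmax (w * cs.simple s)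
      obtain ⟨V, hV⟩ := ih (cs.length w₀ - cs.length (w * cs.simple s)) (by omega)
        (w * cs.simple s) rfl
      have hβ : 0 ≤ geo cs w (ee s) := geo_nonneg cs w s hs
      have hβ2 : geo cs (w * cs.simple s)⁻¹ (geo cs w (ee s)) ≤ 0 := by
        rw [mul_inv_rev, cs.inv_simple, map_mul, Module.End.mul_apply, geo_inv_apply, geo_simple,
          sg_ee_self]
        exact neg_nonpos.mpr (ee_nonneg s)
      obtain ⟨k, hk, hkr⟩ := (hR n q _ V hV).2.1 _ (hB.rt_geo w _ (hB.rt_ee s)) hβ hβ2
      obtain ⟨h1, h2⟩ := erase_prod cs hB n q _ w s V hV k hk hkr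
      refine ⟨V.erase k, ⟨fun j hj => hV.sub j (Finset.mem_of_mem_erase hj), ?_, ?_⟩⟩
      · rw [h2]
        simp [mul_assoc]
      · rw [Finset.card_erase_of_mem hk, hV.card]
        rcases cs.length_mul_simple w s with h3 | h3 <;> omega
    · push Not at hasc
      have hw : w = w₀ := by
        have h1 : ∀ i, geo cs w (ee i) ≤ 0 := by
          intro i
          rw [geo_nonpos_iff]
          rcases cs.length_mul_simple w i with h3 | h3
          · have := hasc i; omega
          · omega
        have h2 : ∀ i, geo cs w₀⁻¹ (ee i) ≤ 0 := by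
          intro i
          rw [geo_nonpos_iff]
          have h4 : cs.length (w₀⁻¹ * cs.simple i) ≤ cs.length w₀⁻¹ := by
            rw [cs.length_inv]; exact hmax _
          rcases cs.length_mul_simple w₀⁻¹ i with h3 | h3 <;> omega
        have h3 : w * w₀⁻¹ = 1 := by
          apply eq_one_of_geo cs
          intro i
          rw [map_mul, Module.End.mul_apply]
          have h4 : geo cs w₀⁻¹ (ee i) = ∑ j, (geo cs w₀⁻¹ (ee i) j) • (ee j : B → ℝ) := by
            ext l
            simp [ee, Finset.sum_apply, Pi.single_apply]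
          rw [h4, map_sum]
          refine Finset.sum_nonneg fun j _ => ?_
          rw [map_smul]
          exact smul_nonneg_of_nonpos_of_nonpos (h2 i j) (h1 j)
        exact mul_inv_eq_one.mp h3
      rw [hw]
      exact hex
  intro w
  exact key _ w rfl

/-- going down one step -/
lemma down (hC : S_CROSS cs) (n : ℕ) (q : ℕ → B) (ω w : W) (s : B) (U : Finset ℕ)
    (hs : cs.length w < cs.length (w * cs.simple s)) (hU : IsK cs n q ω (w * cs.simple s) U) :
    ∃ U1, IsK cs n q ω w U1 := by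
  classical
  have hc := hC n q ω w s U hs
  by_cases h : ∃ k, k < n ∧ k ∉ U ∧ rt cs q U k = - geo cs w (ee s)
  · set P : ℕ → Prop := fun k => k < n ∧ k ∉ U ∧ rt cs q U k = - geo cs w (ee s) with hP
    obtain ⟨k0, hk0⟩ := h
    have hspec : P (Nat.findGreatest P n) := Nat.findGreatest_spec (le_of_lt hk0.1) hk0
    obtain ⟨g, -, -, -, hg⟩ := hc.2.2.2 hU (Nat.findGreatest P n) hspec.1 hspec.2.1 hspec.2.2
      (fun k hk hkn hkU hkr =>
        Nat.findGreatest_is_greatest (P := P) hk hkn.le ⟨hkn, hkU, hkr⟩)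
    exact ⟨_, hg⟩
  · push Not at h
    exact ⟨U, hc.2.2.1 hU h⟩

theorem sort_ (hB : BaseF cs) (hR : S_ROOTS cs) (hC : S_CROSS cs)
    (hKEX : S_KEX cs) (hKUN : S_KUN cs) (hW : S_WEAK cs) : S_SORT cs := by
  classical
  obtain ⟨hW1, hW2, hW3, hW4, hW5, hW6, hW7⟩ := hW
  intro n q hall ω
  -- claim A
  have claimA : ∀ (w : W) (s : B) (K : Finset ℕ), WLe cs w ω →
      cs.length w < cs.length (w * cs.simple s) → ¬ WLe cs (w * cs.simple s) ω →
      IsK cs n q ω w K → ∃ k, k < n ∧ k ∉ K ∧ rt cs q K k = geo cs w (ee s) := by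
    intro w s K hwω hs hns hK
    have hβrt : IsRt cs (geo cs w (ee s)) := hB.rt_geo w _ (hB.rt_ee s)
    have hβ : 0 ≤ geo cs w (ee s) := geo_nonneg cs w s hs
    have hωβ : 0 ≤ geo cs ω⁻¹ (geo cs w (ee s)) := by
      rcases hB.rt_sign _ (hB.rt_geo ω⁻¹ _ hβrt) with h | h
      · exact h
      · exact absurd ((hW7 w ω s hs hwω).mpr h) hns
    set ω' : W := w * cs.simple s * w⁻¹ * ω with hω'
    have hω'β : geo cs ω'⁻¹ (geo cs w (ee s)) ≤ 0 := by
      have : ω'⁻¹ = ω⁻¹ * (w * (cs.simple s * w⁻¹)) := by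
        rw [hω']
        simp [mul_assoc, mul_inv_rev]
      rw [this, map_mul, Module.End.mul_apply, map_mul, Module.End.mul_apply, map_mul,
        Module.End.mul_apply, geo_inv_apply, geo_simple, sg_ee_self, map_neg, map_neg]
      exact neg_nonpos.mpr hωβ
    have hback : w * cs.simple s * w⁻¹ * ω' = ω := by
      rw [hω']
      simp [mul_assoc]
    -- lengths
    have hlen1 : cs.length ω < cs.length ω' := by
      obtain ⟨V, hV⟩ := hall ω'
      obtain ⟨k, hk, hkr⟩ := (hR n q _ V hV).2.1 _ hβrt hβ hω'β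
      obtain ⟨h1, h2⟩ := erase_prod cs hB n q _ w s V hV k hk hkr
      rw [hback] at h2
      have h3 := length_pf_le cs q (V.erase k) n
      rw [h2] at h3
      have h4 : ((V.erase k).filter (fun j => j < n)).card ≤ (V.erase k).card :=
        Finset.card_filter_le _ _
      rw [Finset.card_erase_of_mem hk, hV.card] at h4
      have h5 : 0 < V.card := Finset.card_pos.mpr ⟨k, hk⟩
      rw [hV.card] at h5
      omega
    have hlen2 : cs.length (w⁻¹ * ω') ≤ cs.length (w⁻¹ * ω) + 1 := by
      have h1 : w⁻¹ * ω' = cs.simple s * (w⁻¹ * ω) := by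
        rw [hω']; simp [mul_assoc]
      rw [h1]
      have h2 := cs.length_mul_le (cs.simple s) (w⁻¹ * ω)
      rw [cs.length_simple] at h2
      omega
    have hlen3 : cs.length ω' ≤ cs.length w + cs.length (w⁻¹ * ω') := by
      have := cs.length_mul_le w (w⁻¹ * ω')
      rwa [mul_inv_cancel_left] at this
    have hwω0 : cs.length w + cs.length (w⁻¹ * ω) = cs.length ω := hwω
    have hlen : cs.length ω' = cs.length ω + 1 := by omega
    have hwω' : WLe cs w ω' := by
      unfold WLe; omega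
    obtain ⟨V, hV⟩ := hKEX n q ω' w (hall ω') hwω'
    obtain ⟨k, hk, hkr⟩ := (hR n q _ V hV.fac).2.1 _ hβrt hβ hω'β
    obtain ⟨h1, h2⟩ := erase_prod cs hB n q _ w s V hV.fac k hk hkr
    rw [hback] at h2
    have hkn : k < n := hV.fac.sub k hk
    have hfac : IsFac cs n q ω (V.erase k) := by
      refine ⟨fun j hj => hV.fac.sub j (Finset.mem_of_mem_erase hj), h2, ?_⟩
      rw [Finset.card_erase_of_mem hk, hV.fac.card]
      omega
    have hpos : Pos cs n q (V.erase k) w := by
      intro j hj hjV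
      rcases lt_trichotomy j k with hlt | heq | hgt
      · rw [rt_erase_le cs q V k j hlt.le]
        exact hV.pos j hj (fun hc => hjV (Finset.mem_erase.mpr ⟨hlt.ne, hc⟩))
      · subst heq
        rw [rt_erase_le cs q V j j le_rfl, hkr, geo_inv_apply]
        exact ee_nonneg s
      · rw [rt_erase_gt cs q V k j hk hgt, h1, map_mul, Module.End.mul_apply, map_mul,
          Module.End.mul_apply, geo_inv_apply]
        have hjV' : j ∉ V := fun hc => hjV (Finset.mem_erase.mpr ⟨hgt.ne', hc⟩)
        have hrt : IsRt cs (rt cs q V j) := ⟨_, _, rfl⟩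
        refine hB.rt_simple _ s (hB.rt_geo _ _ hrt) (hV.pos j hj hjV') ?_
        intro hc
        have : rt cs q V j = rt cs q V k := by
          rw [hkr, ← hc, geo_apply_inv]
        exact (hR n q _ V hV.fac).2.2.2.2.2 k hk j hgt hj this
    have hKV : K = V.erase k := hKUN n q ω w _ _ hK ⟨hfac, hpos⟩
    refine ⟨k, hkn, ?_, ?_⟩
    · rw [hKV]; simp
    · rw [hKV, rt_erase_le cs q V k k le_rfl, hkr]
  -- induction on the length
  have key : ∀ (l : ℕ) (v : W) (U : Finset ℕ), cs.length v = l → IsK cs n q ω v U →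
      WLe cs v ω := by
    intro l
    induction l using Nat.strong_induction_on with
    | _ l ih =>
    intro v U hl hU
    by_cases hv : v = 1
    · subst hv
      unfold WLe
      simp
    obtain ⟨s, hs⟩ := cs.exists_rightDescent_of_ne_one hv
    have hs' : cs.length (v * cs.simple s) + 1 = cs.length v := cs.isRightDescent_iff.mp hs
    obtain ⟨w, hw⟩ : ∃ w, w = v * cs.simple s := ⟨_, rfl⟩
    have hvw : v = w * cs.simple s := by rw [hw]; simp
    have hlt : cs.length w < cs.length (w * cs.simple s) := by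
      rw [← hvw, hw]; omega
    rw [hvw] at hU
    obtain ⟨U1, hU1⟩ := down cs hC n q ω w s U hlt hU
    have hwω : WLe cs w ω := ih (cs.length w) (by rw [hw]; omega) w U1 rfl hU1
    by_contra hcon
    rw [hvw] at hcon
    have hno : ∀ k, k < n → k ∉ U → rt cs q U k ≠ - geo cs w (ee s) := by
      intro k hk hkU hkr
      have hneg : rt cs q U k ≤ 0 := by
        rw [hkr]; exact neg_nonpos.mpr (geo_nonneg cs w s hlt)
      obtain ⟨j, hj, -, hjr⟩ := (hR n q ω U hU.fac).2.2.2.2.1 k hk hkU hneg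
      rw [hkr, neg_neg] at hjr
      have h1 := ((hR n q ω U hU.fac).1 j hj).2
      rw [hjr] at h1
      exact hcon ((hW7 w ω s hlt hwω).mpr h1)
    have hUw : IsK cs n q ω w U := (hC n q ω w s U hlt).2.2.1 hU hno
    obtain ⟨k, hk, hkU, hkr⟩ := claimA w s U hwω hlt hcon hUw
    have h1 := hU.pos k hk hkU
    rw [hkr, mul_inv_rev, cs.inv_simple, map_mul, Module.End.mul_apply, geo_inv_apply, geo_simple,
      sg_ee_self] at h1
    exact ee_ne_zero (B := B) s (le_antisymm (neg_nonneg.mp h1) (ee_nonneg s))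
  intro v U hU
  exact key _ v U rfl hU

theorem graph (hB : BaseF cs) (hR : S_ROOTS cs) (hF : S_FLIP cs) (hFC : S_FLIPC cs)
    (hC : S_CROSS cs) (hKUN : S_KUN cs) (hW : S_WEAK cs) (hE : S_EXT cs) (hWa : S_WALL cs)
    (hGH : S_GH cs) : S_GRAPH cs := by
  classical
  obtain ⟨hW1, hW2, hW3, hW4, hW5, hW6, hW7⟩ := hW
  intro n q ω hAlt U U' hSU hSU'
  constructor
  · rintro ⟨hne, z, t, hlt, hle, hz, hzt⟩
    have hc := hC n q ω z t U hlt
    have hzle : WLe cs z ω := by
      refine hW3 z (z * cs.simple t) ω ?_ hle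
      unfold WLe
      rw [inv_mul_cancel_left, cs.length_simple]
      rcases cs.length_mul_simple z t with h3 | h3 <;> omega
    by_cases h : ∃ k, k < n ∧ k ∉ U ∧ rt cs q U k = geo cs z (ee t)
    · have hg1 := Nat.find_spec h
      obtain ⟨g', hg', hg'n, hg'U, hg'r, hK⟩ := hc.2.1 hz (Nat.find h) hg1.1 hg1.2.1 hg1.2.2
        (fun k hk hkU hkr => Nat.find_min h hk ⟨hk.trans hg1.1, hkU, hkr⟩)
        ((hW7 z ω t hlt hzle).mp hle)
      refine ⟨Nat.find h, g', hg', hg'n, hg1.2.1, hg'U, hKUN n q ω _ _ _ hzt hK, ?_⟩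
      rw [hg1.2.2]
      exact hE n q U z t hz.pos
    · push Not at h
      exact absurd (hKUN n q ω _ _ _ (hc.1 hz h) hzt) hne
  · rintro ⟨g, g', hgg', hg'n, hgU, hg'U, hU', hext⟩
    obtain ⟨x, hxω, hx⟩ := hSU
    obtain ⟨x', hx'ω, hx'⟩ := hSU'
    have hfl : rt cs q U g = rt cs q U g' :=
      hFC n q ω U g g' hx.fac (hU' ▸ hx'.fac) hgg' hgU hg'U
    obtain ⟨F1, F2, F3, F4, -⟩ := hF n q ω U g g' hx.fac hgg' hgU hg'U hfl
    obtain ⟨R1, R2, R3, -⟩ := hR n q ω U hx.fac
    have hβ := R1 g' hg'U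
    rw [← hfl] at hβ
    obtain ⟨v, s, hv, hvs⟩ := hWa n q U g (hgg'.trans hg'n) hgU ⟨x, hx.pos⟩ hext
    have hlt : cs.length v < cs.length (v * cs.simple s) := by
      rw [← geo_nonneg_iff, hvs]; exact hβ.1
    have hvK : IsK cs n q ω v U := ⟨hx.fac, hv⟩
    have hfirst : ∀ k, k < g → k ∉ U → rt cs q U k ≠ geo cs v (ee s) := by
      intro h hhg hhU hhr
      rw [hvs] at hhr
      have h1 : 0 ≤ geo cs x'⁻¹ (rt cs q U' h) := by
        refine hx'.pos h (hhg.trans (hgg'.trans hg'n)) ?_
        rw [hU']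
        simp only [Finset.mem_insert, Finset.mem_erase, not_or, not_and]
        exact ⟨hhg.ne, fun _ => hhU⟩
      have h2 : 0 ≤ geo cs x'⁻¹ (rt cs q U' g') := by
        refine hx'.pos g' hg'n ?_
        rw [hU']
        simp only [Finset.mem_insert, Finset.mem_erase, not_or, not_and]
        exact ⟨hgg'.ne', fun h => absurd rfl h⟩
      rw [hU', F2 h hhg.le, hhr] at h1
      rw [hU', F4 g' hgg' le_rfl, ← hfl, hB.rt_norm (rt cs q U g) ⟨_, _, rfl⟩] at h2
      have h3 : rt cs q U g - (2 : ℝ) • rt cs q U g = - rt cs q U g := by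
        rw [two_smul]; abel
      rw [h3, map_neg] at h2
      have h4 : geo cs x'⁻¹ (rt cs q U g) = 0 := le_antisymm (neg_nonneg.mp h2) h1
      exact hB.rt_ne _ (hB.rt_geo x'⁻¹ (rt cs q U g) ⟨_, _, rfl⟩) h4
    obtain ⟨g'', hg'', hg''n, hg''U, hg''r, hK⟩ := (hC n q ω v s U hlt).2.1 hvK g
      (hgg'.trans hg'n) hgU hvs.symm hfirst (by rw [hvs]; exact hβ.2)
    have hgeq : g'' = g' := by
      refine R3 g'' hg''U g' hg'U ?_
      rw [hg''r, hvs, hfl]
    rw [hgeq, ← hU'] at hK
    have hne : U ≠ U' := by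
      intro h
      apply hgU
      rw [h, hU']
      exact Finset.mem_insert_self _ _
    exact ⟨hne, hGH n q ω v s U U' hAlt hlt hvK hK hne ⟨x, hxω, hx⟩ ⟨x', hx'ω, hx'⟩⟩

end Pool.Agent.W230.SC
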